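import Mathlib

set_option autoImplicit false

/-!
# Metrics on `R^n` and closed manifolds `R^n / G`, in coordinates

Points are elements `x` of the Euclidean space `R^n`; tangent vectors are functions
`u : Fin n → ℝ`; fields of bilinear forms or of linear maps are given by their entries.
-/

open MeasureTheory Set
open scoped ContDiff

namespace Pool.Agent.LT

/-- points of `R^n` -/
abbrev P (n : ℕ) := EuclideanSpace ℝ (Fin n)

/-- smooth functions -/
def Sm {n : ℕ} (f : P n → ℝ) : Prop := ContDiff ℝ ∞ f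

/-- partial derivative `∂_k f` -/
noncomputable def pd {n : ℕ} (k : Fin n) (f : P n → ℝ) (x : P n) : ℝ :=
  fderiv ℝ f x (EuclideanSpace.single k 1)

/-- fields of matrices -/
abbrev Mf (n : ℕ) := P n → Fin n → Fin n → ℝ

/-- the bilinear form with matrix `g x` -/
def ip {n : ℕ} (g : Mf n) (x : P n) (u v : Fin n → ℝ) : ℝ := ∑ i, ∑ j, g x i j * u i * v j

/-- smooth fields of symmetric positive semidefinite forms -/
structure IsForm {n : ℕ} (g : Mf n) : Prop where
  smooth : ∀ i j, Sm fun x => g x i j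
  symm : ∀ x i j, g x i j = g x j i
  nonneg : ∀ x v, 0 ≤ ip g x v v

/-- Riemannian metrics -/
structure IsMetric {n : ℕ} (g : Mf n) : Prop where
  smooth : ∀ i j, Sm fun x => g x i j
  symm : ∀ x i j, g x i j = g x j i
  pos : ∀ x v, v ≠ 0 → 0 < ip g x v v

/-- derivative of the map `F` at `x` applied to the vector `u` -/
noncomputable def dl {n : ℕ} (F : P n → P n) (x : P n) (u : Fin n → ℝ) : Fin n → ℝ :=
  fun i => ∑ j, pd j (fun y => F y i) x * u j

/-- the group acts smoothly, freely, properly discontinuously and cocompactly on `R^n`; the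
quotient is a closed manifold with universal covering `R^n` -/
structure IsAct (n : ℕ) (G : Type) [Group G] [MulAction G (P n)] : Prop where
  smooth : ∀ (a : G) (i : Fin n), Sm fun x : P n => (a • x) i
  free : ∀ (a : G) (x : P n), a • x = x → a = 1
  proper : ∀ K : Set (P n), IsCompact K → {a : G | ∃ x ∈ K, a • x ∈ K}.Finite
  cocompact : ∃ K : Set (P n), IsCompact K ∧ ∀ x : P n, ∃ a : G, a • x ∈ K

/-- the form is invariant under the group -/
def Inv {n : ℕ} (G : Type) [Group G] [MulAction G (P n)] (g : Mf n) : Prop :=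
  ∀ (a : G) (x : P n) (u v : Fin n → ℝ),
    ip g (a • x) (dl (fun y => a • y) x u) (dl (fun y => a • y) x v) = ip g x u v

/-- curves of class `C^k` -/
def Ck {n : ℕ} (k : ℕ) (c : ℝ → P n) : Prop := ∀ i, ContDiff ℝ k fun t => c t i

/-- velocity of a curve -/
noncomputable def vel {n : ℕ} (c : ℝ → P n) (t : ℝ) : Fin n → ℝ := fun i => deriv (fun s => c s i) t

/-- speed of a curve -/
noncomputable def speed {n : ℕ} (g : Mf n) (c : ℝ → P n) (t : ℝ) : ℝ :=
  Real.sqrt (ip g (c t) (vel c t) (vel c t))

/-- `PathLen g x y l`: some piecewise `C^1` curve from `x` to `y` has length `l` -/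
inductive PathLen {n : ℕ} (g : Mf n) : P n → P n → ℝ → Prop
  | refl (x : P n) : PathLen g x x 0
  | cons (c : ℝ → P n) (a b : ℝ) (y : P n) (l : ℝ) (hc : Ck 1 c) (hab : a ≤ b)
      (h : PathLen g (c b) y l) : PathLen g (c a) y ((∫ t in a..b, speed g c t) + l)

/-- distance -/
noncomputable def gd {n : ℕ} (g : Mf n) (x y : P n) : ℝ := sInf {l | PathLen g x y l}

/-- marked length spectrum: infimum of the lengths of the curves from `x` to `a x`, that is of the
closed curves of the quotient in the free homotopy class of `a` -/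
noncomputable def L {n : ℕ} {G : Type} [Group G] [MulAction G (P n)] (g : Mf n) (a : G) : ℝ :=
  sInf {l | ∃ x : P n, PathLen g x (a • x) l}

/-- geodesics (Euler-Lagrange equations of the energy) -/
def IsGeo {n : ℕ} (g : Mf n) (c : ℝ → P n) : Prop :=
  Ck 2 c ∧ ∀ t k, HasDerivAt (fun s => ∑ j, g (c s) k j * vel c s j)
    (1 / 2 * ∑ i, ∑ j, pd k (fun x => g x i j) (c t) * vel c t i * vel c t j) t

/-- no conjugate points, in the form: every unit speed geodesic of the universal covering is
minimizing -/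
def Minz {n : ℕ} (g : Mf n) : Prop :=
  ∀ c : ℝ → P n, IsGeo g c → (∀ t, speed g c t = 1) → ∀ s t, gd g (c s) (c t) = |s - t|

/-- the universal covering is Gromov hyperbolic (four point condition) -/
def HypG {n : ℕ} (g : Mf n) : Prop := ∃ δ : ℝ, ∀ x y z w : P n,
  gd g x y + gd g z w ≤ max (gd g x z + gd g y w) (gd g x w + gd g y z) + δ

/-- Christoffel symbols `Γ^k_ij` -/
noncomputable def Chr {n : ℕ} (g : Mf n) (k i j : Fin n) (x : P n) : ℝ :=
  1 / 2 * ∑ l, (Matrix.of (g x))⁻¹ k l *
    (pd i (fun y => g y j l) x + pd j (fun y => g y i l) x - pd l (fun y => g y i j) x)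

/-- the component `l` of the curvature `R(e_i, e_j) e_k` -/
noncomputable def Cur {n : ℕ} (g : Mf n) (l i j k : Fin n) (x : P n) : ℝ :=
  pd i (Chr g l j k) x - pd j (Chr g l i k) x +
    ∑ m, (Chr g l i m x * Chr g m j k x - Chr g l j m x * Chr g m i k x)

/-- numerator `g (R(u, v) v, u)` of the sectional curvature -/
noncomputable def Sec {n : ℕ} (g : Mf n) (x : P n) (u v : Fin n → ℝ) : ℝ :=
  ip g x (fun l => ∑ i, ∑ j, ∑ k, Cur g l i j k x * u i * v j * v k) u

/-- all sectional curvatures are negative -/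
def NegSec {n : ℕ} (g : Mf n) : Prop := ∀ x u v, LinearIndependent ℝ ![u, v] → Sec g x u v < 0

/-- covariant derivative along the curve `c` of the vector field `X` -/
noncomputable def cov {n : ℕ} (g : Mf n) (c : ℝ → P n) (X : ℝ → Fin n → ℝ) (t : ℝ) : Fin n → ℝ :=
  fun i => deriv (fun s => X s i) t + ∑ j, ∑ k, Chr g i j k (c t) * vel c t j * X t k

/-- Jacobi fields along `c` -/
def IsJac {n : ℕ} (g : Mf n) (c : ℝ → P n) (J : ℝ → Fin n → ℝ) : Prop :=
  (∀ i, ContDiff ℝ 2 fun t => J t i) ∧ ∀ t l, cov g c (cov g c J) t l +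
    ∑ i, ∑ j, ∑ k, Cur g l i j k (c t) * J t i * vel c t j * vel c t k = 0

/-- no conjugate points: a Jacobi field along a geodesic which vanishes at two different points
vanishes identically -/
def NoConj {n : ℕ} (g : Mf n) : Prop := ∀ c : ℝ → P n, IsGeo g c → ∀ J : ℝ → Fin n → ℝ,
  IsJac g c J → ∀ a b : ℝ, a ≠ b → (∀ i, J a i = 0) → (∀ i, J b i = 0) → ∀ t i, J t i = 0

/-- volume density -/
noncomputable def dens {n : ℕ} (g : Mf n) (x : P n) : ℝ := Real.sqrt (Matrix.of (g x)).det

/-- fundamental domains -/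
def IsFD {n : ℕ} (G : Type) [Group G] [MulAction G (P n)] (D : Set (P n)) : Prop :=
  MeasurableSet D ∧ ∀ x : P n, ∃! a : G, a • x ∈ D

/-- pull-back under a map -/
noncomputable def pull {n : ℕ} (F : P n → P n) (g : Mf n) : Mf n := fun x i j =>
  ∑ k, ∑ l, g (F x) k l * pd i (fun y => F y k) x * pd j (fun y => F y l) x

/-- the vector `A u` -/
def app {n : ℕ} (A : Mf n) (x : P n) (u : Fin n → ℝ) : Fin n → ℝ := fun i => ∑ j, A x i j * u j

/-- almost complex structures on the quotient -/
structure IsJ {n : ℕ} (G : Type) [Group G] [MulAction G (P n)] (J : Mf n) : Prop where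
  smooth : ∀ i j, Sm fun x => J x i j
  sq : ∀ x u i, app J x (app J x u) i = -u i
  inv : ∀ (a : G) (x : P n) (u : Fin n → ℝ),
    app J (a • x) (dl (fun y => a • y) x u) = dl (fun y => a • y) x (app J x u)

/-- entries of the form `g (J u, v)` -/
def om {n : ℕ} (J g : Mf n) (i j : Fin n) (x : P n) : ℝ := ∑ k, g x k j * J x k i

/-- the form is compatible with `J`, and the two form `g (J u, v)` is closed -/
structure Kah {n : ℕ} (J g : Mf n) : Prop where
  compat : ∀ x u v, ip g x (app J x u) (app J x v) = ip g x u v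
  closed : ∀ x i j k, pd i (om J g j k) x + pd j (om J g k i) x + pd k (om J g i j) x = 0

/-- the class of the two form of `g1` minus the class of the two form of `g2` is represented by
the semipositive form `b (J u, v)` -/
def ClassLe {n : ℕ} (G : Type) [Group G] [MulAction G (P n)] (J g2 g1 : Mf n) : Prop :=
  ∃ (b : Mf n) (α : Fin n → P n → ℝ), IsForm b ∧ Inv G b ∧ (∀ i, Sm (α i)) ∧
    (∀ (a : G) (x : P n) (u : Fin n → ℝ),
      ∑ i, α i (a • x) * dl (fun y => a • y) x u i = ∑ i, α i x * u i) ∧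
    ∀ x i j, om J g1 i j x - om J g2 i j x = om J b i j x + (pd i (α j) x - pd j (α i) x)

/-- the unit ball bundle over `D` -/
def Ball {n : ℕ} (g : Mf n) (D : Set (P n)) : Set (P n × (Fin n → ℝ)) :=
  {z | z.1 ∈ D ∧ ip g z.1 z.2 z.2 ≤ 1}

/-- volume density on the segment from `g1` to `g2` -/
noncomputable def sdens {n : ℕ} (g1 g2 : Mf n) (t : ℝ) (x : P n) : ℝ :=
  dens (fun y i j => (1 - t) * g1 y i j + t * g2 y i j) x

end Pool.Agent.LT
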